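import Mathlib

namespace Pool.Agent.H90Dens

open Finset

/-- one period -/
theorem one_period (r : ℕ → ℕ) (Q : Finset ℕ) (hQ : ∀ q ∈ Q, q.Prime) :
    ((Finset.range (∏ q ∈ Q, q)).filter (fun n => ∀ q ∈ Q, ¬ n ≡ r q [MOD q])).card
      ≤ ∏ q ∈ Q, (q - 1) := by
  classical
  induction Q using Finset.induction_on with
  | empty => simp
  | insert a s ha ih =>
    have hs : ∀ q ∈ s, q.Prime := fun q hq => hQ q (Finset.mem_insert_of_mem hq)
    have hap : a.Prime := hQ a (Finset.mem_insert_self a s)
    have ih' := ih hs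
    have hcop : Nat.Coprime a (∏ q ∈ s, q) := by
      refine Nat.Coprime.prod_right (fun q hq => ?_)
      exact (Nat.coprime_primes hap (hs q hq)).2 (fun h => ha (h ▸ hq))
    rw [Finset.prod_insert ha, Finset.prod_insert ha]
    have hM : 0 < ∏ q ∈ s, q := Finset.prod_pos (fun q hq => (hs q hq).pos)
    have hinj : ((Finset.range (a * ∏ q ∈ s, q)).filter
        (fun n => ∀ q ∈ insert a s, ¬ n ≡ r q [MOD q])).card ≤
        (((Finset.range a).erase (r a % a)) ×ˢ
          ((Finset.range (∏ q ∈ s, q)).filter (fun n => ∀ q ∈ s, ¬ n ≡ r q [MOD q]))).card := by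
      refine Finset.card_le_card_of_injOn (fun n => (n % a, n % (∏ q ∈ s, q))) ?_ ?_
      · intro n hn
        have hn' := Finset.mem_filter.1 (Finset.mem_coe.1 hn)
        refine Finset.mem_coe.2 (Finset.mem_product.2 ⟨?_, ?_⟩)
        · refine Finset.mem_erase.2 ⟨?_, Finset.mem_range.2 (Nat.mod_lt _ hap.pos)⟩
          intro h
          exact hn'.2 a (Finset.mem_insert_self a s) h
        · refine Finset.mem_filter.2 ⟨Finset.mem_range.2 (Nat.mod_lt _ hM), ?_⟩
          intro q hq h
          refine hn'.2 q (Finset.mem_insert_of_mem hq) ?_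
          have h1 : (n % (∏ q ∈ s, q)) ≡ n [MOD q] := by
            have : (n % (∏ q ∈ s, q)) ≡ n [MOD (∏ q ∈ s, q)] := Nat.mod_modEq _ _
            exact this.of_dvd (Finset.dvd_prod_of_mem _ hq)
          exact h1.symm.trans h
      · intro n hn m hm h
        have hn' := Finset.mem_range.1 (Finset.mem_filter.1 (Finset.mem_coe.1 hn)).1
        have hm' := Finset.mem_range.1 (Finset.mem_filter.1 (Finset.mem_coe.1 hm)).1
        have h1 : n ≡ m [MOD a] := (Prod.mk.inj h).1
        have h2 : n ≡ m [MOD (∏ q ∈ s, q)] := (Prod.mk.inj h).2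
        have h3 : n ≡ m [MOD (a * ∏ q ∈ s, q)] :=
          (Nat.modEq_and_modEq_iff_modEq_mul hcop).1 ⟨h1, h2⟩
        exact Nat.ModEq.eq_of_lt_of_lt h3 hn' hm'
    refine hinj.trans ?_
    rw [Finset.card_product]
    refine Nat.mul_le_mul ?_ ih'
    rw [Finset.card_erase_of_mem (Finset.mem_range.2 (Nat.mod_lt _ hap.pos)), Finset.card_range]

/-- count over several periods -/
theorem periods (M : ℕ) (p : ℕ → Prop) [DecidablePred p] (hp : ∀ n, p (n + M) ↔ p n) (k : ℕ) :
    ((Finset.range (k * M)).filter p).card = k * ((Finset.range M).filter p).card := by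
  induction k with
  | zero => simp
  | succ k ih =>
    have h1 : ∀ j n, p (n + j * M) ↔ p n := by
      intro j
      induction j with
      | zero => intro n; simp
      | succ j ihj =>
        intro n
        have : n + (j + 1) * M = (n + j * M) + M := by ring
        rw [this, hp, ihj]
    have h2 : Finset.range ((k + 1) * M) = Finset.range (k * M) ∪
        (Finset.range M).image (fun n => n + k * M) := by
      ext x
      simp only [Finset.mem_range, Finset.mem_union, Finset.mem_image]
      constructor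
      · intro hx
        by_cases h : x < k * M
        · exact Or.inl h
        · refine Or.inr ⟨x - k * M, ?_, by omega⟩
          have : (k + 1) * M = k * M + M := by ring
          omega
      · rintro (hx | ⟨y, hy, rfl⟩)
        · have : (k + 1) * M = k * M + M := by ring
          omega
        · have : (k + 1) * M = k * M + M := by ring
          omega
    have hdis : Disjoint ((Finset.range (k * M)).filter p)
        (((Finset.range M).image (fun n => n + k * M)).filter p) := by
      rw [Finset.disjoint_left]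
      intro x hx hx'
      have a1 := Finset.mem_range.1 (Finset.mem_filter.1 hx).1
      obtain ⟨y, _, hy⟩ := Finset.mem_image.1 (Finset.mem_filter.1 hx').1
      have hy' : y + k * M = x := hy
      omega
    rw [h2, Finset.filter_union, Finset.card_union_of_disjoint hdis, ih]
    have h3 : (((Finset.range M).image (fun n => n + k * M)).filter p).card
        = ((Finset.range M).filter p).card := by
      rw [Finset.filter_image]
      rw [Finset.card_image_of_injective _ (fun a b h => Nat.add_right_cancel h)]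
      congr 1
      ext x
      simp only [Finset.mem_filter]
      rw [h1 k x]
    rw [h3]
    ring

theorem dens (P : Set ℕ) (hP : ∀ q ∈ P, q.Prime)
    (hs : ¬ Summable (fun q : ℕ => Set.indicator P (fun q => (1 : ℝ) / q) q))
    (r : ℕ → ℕ) (b : ℕ) (ε : ℝ) (hε : 0 < ε) :
    ∃ Q : Finset ℕ, (∀ q ∈ Q, q ∈ P ∧ b < q) ∧
      ∃ N₀ : ℕ, ∀ N ≥ N₀,
        (((Finset.range N).filter (fun n => ∀ q ∈ Q, ¬ n ≡ r q [MOD q])).card : ℝ) ≤ ε * N := by
  classical
  set f : ℕ → ℝ := fun q : ℕ => Set.indicator P (fun q => (1 : ℝ) / q) q with hf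
  have hf0 : ∀ n, 0 ≤ f n := by
    intro n
    exact Set.indicator_nonneg (fun _ _ => by positivity) n
  have ht := (not_summable_iff_tendsto_nat_atTop_of_nonneg hf0).1 hs
  -- choose a level
  set B : ℝ := ∑ i ∈ Finset.range (b + 1), f i with hB
  obtain ⟨K, hK⟩ := (ht.eventually_ge_atTop (B + (- Real.log (ε / 2)))).exists
  have hK' : B + (- Real.log (ε / 2)) ≤ ∑ i ∈ Finset.range K, f i := hK
  set Q : Finset ℕ := (Finset.range K).filter (fun q => q ∈ P ∧ b < q) with hQ
  have hQP : ∀ q ∈ Q, q ∈ P ∧ b < q := fun q hq => (Finset.mem_filter.1 hq).2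
  have hQpr : ∀ q ∈ Q, q.Prime := fun q hq => hP q (hQP q hq).1
  have hsum : - Real.log (ε / 2) ≤ ∑ q ∈ Q, (1 : ℝ) / q := by
    have h1 : ∑ i ∈ Finset.range K, f i ≤ B + ∑ q ∈ Q, (1 : ℝ) / q := by
      have h2 : ∑ i ∈ Finset.range K, f i =
          ∑ i ∈ (Finset.range K).filter (fun q => q ∈ P ∧ b < q), f i +
          ∑ i ∈ (Finset.range K).filter (fun q => ¬ (q ∈ P ∧ b < q)), f i :=
        (Finset.sum_filter_add_sum_filter_not _ _ _).symm
      have h3 : ∑ i ∈ (Finset.range K).filter (fun q => q ∈ P ∧ b < q), f i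
          = ∑ q ∈ Q, (1 : ℝ) / q := by
        refine Finset.sum_congr rfl (fun q hq => ?_)
        have := (Finset.mem_filter.1 hq).2.1
        simp only [hf, Set.indicator_of_mem this]
      have h4 : ∑ i ∈ (Finset.range K).filter (fun q => ¬ (q ∈ P ∧ b < q)), f i ≤ B := by
        have h5 : ∑ i ∈ (Finset.range K).filter (fun q => ¬ (q ∈ P ∧ b < q)), f i =
            ∑ i ∈ ((Finset.range K).filter (fun q => ¬ (q ∈ P ∧ b < q))).filter
              (fun q => q ≤ b), f i := by
          symm
          refine Finset.sum_subset (Finset.filter_subset _ _) ?_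
          intro x hx hx'
          have a1 := (Finset.mem_filter.1 hx).2
          have a2 : ¬ x ≤ b := fun h => hx' (Finset.mem_filter.2 ⟨hx, h⟩)
          have a3 : x ∉ P := fun h => a1 ⟨h, by omega⟩
          simp only [hf, Set.indicator_of_notMem a3]
        rw [h5]
        refine Finset.sum_le_sum_of_subset_of_nonneg ?_ (fun i _ _ => hf0 i)
        intro x hx
        have := (Finset.mem_filter.1 hx).2
        exact Finset.mem_range.2 (by omega)
      rw [h2, h3]
      linarith
    linarith
  have hM : 0 < ∏ q ∈ Q, q := Finset.prod_pos (fun q hq => (hQpr q hq).pos)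
  set M : ℕ := ∏ q ∈ Q, q with hMdef
  have hprod : ((∏ q ∈ Q, (q - 1) : ℕ) : ℝ) ≤ (ε / 2) * M := by
    have h1 : ((∏ q ∈ Q, (q - 1) : ℕ) : ℝ) = (∏ q ∈ Q, (1 - (1 : ℝ) / q)) * M := by
      rw [hMdef]
      push_cast
      rw [← Finset.prod_mul_distrib]
      refine Finset.prod_congr rfl (fun q hq => ?_)
      have hq0 : (q : ℝ) ≠ 0 := by exact_mod_cast (hQpr q hq).ne_zero
      rw [Nat.cast_sub (hQpr q hq).one_le]
      field_simp
      push_cast
      ring
    have h2 : ∏ q ∈ Q, (1 - (1 : ℝ) / q) ≤ ε / 2 := by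
      have h3 : ∏ q ∈ Q, (1 - (1 : ℝ) / q) ≤ ∏ q ∈ Q, Real.exp (-((1 : ℝ) / q)) := by
        refine Finset.prod_le_prod (fun q hq => ?_) (fun q hq => ?_)
        · have : (1 : ℝ) ≤ q := by exact_mod_cast (hQpr q hq).one_le
          have : (1 : ℝ) / q ≤ 1 := by
            rw [div_le_one (by linarith)]
            exact this
          linarith
        · have := Real.add_one_le_exp (-((1 : ℝ) / q))
          linarith
      rw [← Real.exp_sum] at h3
      have h4 : ∑ q ∈ Q, -((1 : ℝ) / q) ≤ Real.log (ε / 2) := by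
        rw [Finset.sum_neg_distrib]
        linarith
      have h5 := Real.exp_le_exp.2 h4
      rw [Real.exp_log (by positivity)] at h5
      exact h3.trans h5
    rw [h1]
    exact mul_le_mul_of_nonneg_right h2 (by positivity)
  refine ⟨Q, hQP, M, ?_⟩
  intro N hN
  have hper : ∀ n, (∀ q ∈ Q, ¬ (n + M) ≡ r q [MOD q]) ↔ (∀ q ∈ Q, ¬ n ≡ r q [MOD q]) := by
    intro n
    refine forall₂_congr (fun q hq => ?_)
    have h1 : (n + M) ≡ n [MOD q] := by
      have h2 : M ≡ 0 [MOD q] := (Nat.modEq_zero_iff_dvd).2 (Finset.dvd_prod_of_mem _ hq)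
      simpa using (Nat.ModEq.refl n).add h2
    constructor
    · intro h h'
      exact h (h1.trans h')
    · intro h h'
      exact h (h1.symm.trans h')
  have hc1 : ((Finset.range N).filter (fun n => ∀ q ∈ Q, ¬ n ≡ r q [MOD q])).card ≤
      ((Finset.range ((N / M + 1) * M)).filter (fun n => ∀ q ∈ Q, ¬ n ≡ r q [MOD q])).card := by
    refine Finset.card_le_card (Finset.filter_subset_filter _ ?_)
    intro x hx
    have h1 := Finset.mem_range.1 hx
    refine Finset.mem_range.2 ?_
    have h2 := Nat.lt_div_mul_add (a := N) hM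
    have h3 : (N / M + 1) * M = N / M * M + M := by ring
    omega
  rw [periods M _ hper] at hc1
  have hc2 := one_period r Q hQpr
  have hc3 : ((Finset.range N).filter (fun n => ∀ q ∈ Q, ¬ n ≡ r q [MOD q])).card ≤
      (N / M + 1) * ∏ q ∈ Q, (q - 1) :=
    hc1.trans (Nat.mul_le_mul le_rfl hc2)
  have hc4 : (((Finset.range N).filter (fun n => ∀ q ∈ Q, ¬ n ≡ r q [MOD q])).card : ℝ) ≤
      ((N / M + 1 : ℕ) : ℝ) * ((∏ q ∈ Q, (q - 1) : ℕ) : ℝ) := by
    exact_mod_cast hc3
  have hM' : (0 : ℝ) < M := by exact_mod_cast hM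
  have hdiv : ((N / M + 1 : ℕ) : ℝ) * M ≤ 2 * N := by
    have h1 : (N / M + 1) * M ≤ 2 * N := by
      have h2 : N / M * M ≤ N := Nat.div_mul_le_self N M
      have h3 : (N / M + 1) * M = N / M * M + M := by ring
      omega
    exact_mod_cast h1
  calc (((Finset.range N).filter (fun n => ∀ q ∈ Q, ¬ n ≡ r q [MOD q])).card : ℝ)
      ≤ ((N / M + 1 : ℕ) : ℝ) * ((∏ q ∈ Q, (q - 1) : ℕ) : ℝ) := hc4
    _ ≤ ((N / M + 1 : ℕ) : ℝ) * ((ε / 2) * M) := by
        exact mul_le_mul_of_nonneg_left hprod (by positivity)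
    _ = (ε / 2) * (((N / M + 1 : ℕ) : ℝ) * M) := by ring
    _ ≤ (ε / 2) * (2 * N) := by
        exact mul_le_mul_of_nonneg_left hdiv (by positivity)
    _ = ε * N := by ring

end Pool.Agent.H90Dens
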