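import Mathlib

namespace Pool.Agent.H90Dens

open ArithmeticFunction ArithmeticFunction.vonMangoldt Filter Topology

theorem ns_unit (m : ℕ) [NeZero m] (a : ZMod m) (ha : IsUnit a) :
    ¬ Summable (fun q : ℕ => if q.Prime ∧ (q : ZMod m) = a then (1 : ℝ) / q else 0) := by
  intro hs
  obtain ⟨C, hC⟩ := LSeries_residueClass_lower_bound (q := m) (a := a) ha
  set bound : ℕ → ℝ := fun n => (if n.Prime then 0 else residueClass a n) / n +
    (if n.Prime ∧ (n : ZMod m) = a then (1 : ℝ) / n else 0) with hb
  have hbs : Summable bound := (summable_residueClass_non_primes_div a).add hs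
  have hdom : Tendsto (fun x : ℝ => ∑' n : ℕ, (x - 1) * (residueClass a n / (n : ℝ) ^ x))
      (𝓝[>] 1) (𝓝 (∑' n : ℕ, (0 : ℝ))) := by
    refine tendsto_tsum_of_dominated_convergence hbs ?_ ?_
    · intro n
      have h1 : Tendsto (fun x : ℝ => (x - 1) * (residueClass a n / (n : ℝ) ^ x)) (𝓝 1)
          (𝓝 ((1 - 1) * (residueClass a n / (n : ℝ) ^ (1 : ℝ)))) := by
        rcases Nat.eq_zero_or_pos n with rfl | hn
        · simp
        · have hn' : (0 : ℝ) < n := by exact_mod_cast hn
          refine Tendsto.mul (tendsto_id.sub tendsto_const_nhds) ?_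
          refine Tendsto.div tendsto_const_nhds ?_ (by positivity)
          exact (Real.continuous_const_rpow hn'.ne').tendsto 1
      have h2 : (1 - 1) * (residueClass a n / (n : ℝ) ^ (1 : ℝ)) = 0 := by ring
      rw [h2] at h1
      exact h1.mono_left nhdsWithin_le_nhds
    · have hmem : Set.Ioc (1 : ℝ) 2 ∈ 𝓝[>] (1 : ℝ) := Ioc_mem_nhdsGT (by norm_num)
      filter_upwards [hmem] with x hx n
      have hx1 : 0 < x - 1 := by linarith [hx.1]
      have hx2 : x - 1 ≤ 1 := by linarith [hx.2]
      have hr := residueClass_nonneg a n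
      rw [Real.norm_of_nonneg (by positivity)]
      rcases Nat.eq_zero_or_pos n with rfl | hn
      · simp [hb]
      have hn' : (0 : ℝ) < n := by exact_mod_cast hn
      have hn1 : (1 : ℝ) ≤ n := by exact_mod_cast hn
      by_cases hp : n.Prime
      · by_cases hc : (n : ZMod m) = a
        · have hres : residueClass a n = Real.log n := by
            have h3 : residueClass a n = vonMangoldt n := by
              simp only [residueClass]
              rw [Set.indicator_of_mem]
              exact hc
            rw [h3, vonMangoldt_apply_prime hp]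
          have hbn : bound n = 1 / n := by
            simp [hb, hp, hc]
          rw [hbn, hres]
          have h4 : (x - 1) * Real.log n ≤ (n : ℝ) ^ (x - 1) := by
            rw [Real.rpow_def_of_pos hn']
            have := Real.add_one_le_exp (Real.log n * (x - 1))
            linarith [this]
          have h5 : (n : ℝ) ^ x = (n : ℝ) ^ (x - 1) * n := by
            rw [← Real.rpow_add_one hn'.ne']
            congr 1
            ring
          rw [h5, ← mul_div_assoc, div_le_div_iff₀ (by positivity) hn']
          nlinarith [mul_le_mul_of_nonneg_right h4 hn'.le]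
        · have hres : residueClass a n = 0 := by
            simp only [residueClass]
            rw [Set.indicator_of_notMem]
            exact hc
          have hbn : bound n = 0 := by
            simp [hb, hp, hc]
          rw [hbn, hres]
          simp
      · have hbn : bound n = residueClass a n / n := by
          simp [hb, hp]
        rw [hbn]
        have h5 : residueClass a n / (n : ℝ) ^ x ≤ residueClass a n / n := by
          refine div_le_div_of_nonneg_left hr hn' ?_
          conv_lhs => rw [← Real.rpow_one (n : ℝ)]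
          exact Real.rpow_le_rpow_of_exponent_le hn1 hx.1.le
        calc (x - 1) * (residueClass a n / (n : ℝ) ^ x)
            ≤ 1 * (residueClass a n / (n : ℝ) ^ x) := by
              exact mul_le_mul_of_nonneg_right hx2 (by positivity)
          _ = residueClass a n / (n : ℝ) ^ x := one_mul _
          _ ≤ _ := h5
  rw [tsum_zero] at hdom
  have hlow : Tendsto (fun x : ℝ => (m.totient : ℝ)⁻¹ - C * (x - 1)) (𝓝[>] 1)
      (𝓝 ((m.totient : ℝ)⁻¹ - C * (1 - 1))) := by
    have : Tendsto (fun x : ℝ => (m.totient : ℝ)⁻¹ - C * (x - 1)) (𝓝 1)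
      (𝓝 ((m.totient : ℝ)⁻¹ - C * (1 - 1))) := by
      exact (Continuous.tendsto (by fun_prop) 1)
    exact this.mono_left nhdsWithin_le_nhds
  have hle : (m.totient : ℝ)⁻¹ - C * (1 - 1) ≤ 0 := by
    refine le_of_tendsto_of_tendsto hlow hdom ?_
    have hmem : Set.Ioc (1 : ℝ) 2 ∈ 𝓝[>] (1 : ℝ) := Ioc_mem_nhdsGT (by norm_num)
    filter_upwards [hmem] with x hx
    have hx1 : 0 < x - 1 := by linarith [hx.1]
    have h1 := hC hx
    have h2 := mul_le_mul_of_nonneg_left h1 hx1.le
    rw [tsum_mul_left]
    refine le_trans (le_of_eq ?_) h2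
    field_simp
  have hpos : 0 < (m.totient : ℝ)⁻¹ := inv_pos.mpr (by exact_mod_cast Nat.totient_pos.2 (Nat.pos_of_neZero m))
  linarith

theorem ns (m : ℕ) [NeZero m] :
    ¬ Summable (fun q : ℕ => if q.Prime ∧ (q : ZMod m) = 1 then (1 : ℝ) / q else 0) :=
  ns_unit m 1 isUnit_one

end Pool.Agent.H90Dens
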